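import Pool.Agent.Helper99.SI.StA

set_option autoImplicit false

/-!
# Project SI: module A1
-/

namespace Pool.Agent.Helper98.SI

open Pool.Agent.Helper99.SI

section

variable {n : ℕ} {L : Type} [Ring L] [Algebra ℂ L] [StarRing L] (D : Sys n L)

lemma w_nil : D.w [] = 1 := by
  simp [Sys.w, wd]

lemma w_cons (i : Fin n) (μ : W n) : D.w (i :: μ) = D.x i * D.w μ := by
  simp [Sys.w, wd]

lemma w_append (μ ν : W n) : D.w (μ ++ ν) = D.w μ * D.w ν := by
  simp [Sys.w, wd]

lemma star_w_mul_w (μ : W n) : star (D.w μ) * D.w μ = 1 := by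
  induction μ with
  | nil => simp [w_nil]
  | cons i μ ih =>
    rw [w_cons, star_mul]
    calc star (D.w μ) * star (D.x i) * (D.x i * D.w μ)
        = star (D.w μ) * (star (D.x i) * D.x i) * D.w μ := by noncomm_ring
      _ = 1 := by rw [D.orth i i, if_pos rfl, mul_one, ih]

lemma star_w_mul_append (μ ν : W n) : star (D.w μ) * D.w (μ ++ ν) = D.w ν := by
  rw [w_append, ← mul_assoc, star_w_mul_w, one_mul]

lemma star_append_mul_w (μ ν : W n) : star (D.w (μ ++ ν)) * D.w μ = star (D.w ν) := by
  rw [w_append, star_mul, mul_assoc, star_w_mul_w, mul_one]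

lemma star_w_mul_w_zero (μ ν : W n) (h1 : ¬ μ <+: ν) (h2 : ¬ ν <+: μ) :
    star (D.w μ) * D.w ν = 0 := by
  induction μ generalizing ν with
  | nil => exact absurd (List.nil_prefix) h1
  | cons i μ ih =>
    cases ν with
    | nil => exact absurd (List.nil_prefix) h2
    | cons j ν =>
      rw [w_cons, w_cons, star_mul]
      have e : star (D.w μ) * star (D.x i) * (D.x j * D.w ν)
          = star (D.w μ) * (star (D.x i) * D.x j) * D.w ν := by noncomm_ring
      rw [e, D.orth i j]
      by_cases hij : i = j
      · subst hij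
        rw [if_pos rfl, mul_one]
        refine ih ν ?_ ?_
        · intro h
          exact h1 (List.cons_prefix_cons.mpr ⟨rfl, h⟩)
        · intro h
          exact h2 (List.cons_prefix_cons.mpr ⟨rfl, h⟩)
      · rw [if_neg hij, mul_zero, zero_mul]

lemma sum_w_star (k : ℕ) :
    ∑ κ : Fin k → Fin n, D.w (List.ofFn κ) * star (D.w (List.ofFn κ)) = 1 := by
  induction k with
  | zero => simp [w_nil]
  | succ k ih =>
    rw [← (Fin.consEquiv fun _ : Fin (k + 1) => Fin n).sum_comp]
    rw [Fintype.sum_prod_type]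
    have e : ∀ (i : Fin n) (κ : Fin k → Fin n),
        D.w (List.ofFn ((Fin.consEquiv fun _ : Fin (k + 1) => Fin n) (i, κ))) *
          star (D.w (List.ofFn ((Fin.consEquiv fun _ : Fin (k + 1) => Fin n) (i, κ))))
          = D.x i * (D.w (List.ofFn κ) * star (D.w (List.ofFn κ))) * star (D.x i) := by
      intro i κ
      have : List.ofFn ((Fin.consEquiv fun _ : Fin (k + 1) => Fin n) (i, κ))
          = i :: List.ofFn κ := by
        simp [List.ofFn_succ]
      rw [this, w_cons, star_mul]
      noncomm_ring
    simp only [e]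
    have f : ∀ i : Fin n, ∑ κ : Fin k → Fin n,
        D.x i * (D.w (List.ofFn κ) * star (D.w (List.ofFn κ))) * star (D.x i)
        = D.x i * star (D.x i) := by
      intro i
      rw [← Finset.sum_mul, ← Finset.mul_sum, ih, mul_one]
    rw [Finset.sum_congr rfl fun i _ => f i]
    exact D.comp

end

theorem hA1 : StA1 := by
  intro n L _ _ _ _ D
  exact ⟨w_append D, star_w_mul_append D, star_append_mul_w D, star_w_mul_w_zero D, sum_w_star D⟩

end Pool.Agent.Helper98.SI
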